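import Pool.Agent.H540.TE.Pg

/-!
# Almost prime values of `k ^ 2 + 3 k + 1` at the differences of the elements of a set of `N ^ (1 - c)` integers

A theorem of the type of Furstenberg and Sárközy, with a power saving, for the almost prime values of
`k ^ 2 + 3 k + 1`. Let `δ > 0`. There is `c > 0` such that for large `N` in every set `A` of integers in
`[1, N]` with at least `N ^ (1 - c)` elements there are at least `N ^ (2 - δ)` pairs of elements `b < a` for which with
`k = a - b` the number `k ^ 2 + 3 k + 1` has at most three prime factors, counted with multiplicity, all at least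
`N ^ (6 / 25)`. Moreover the differences can be sieved: for the primes `p ≤ N ^ c` let `Y p` be any set of at most `h`
nonzero residue classes; the differences may be taken outside of all these classes (`c` depends on `δ` and `h`,
but not on the classes). For instance with the classes of `-1`, `-2`, `-3` (for `p > 3`) the product
`(k + 1) (k + 2) (k + 3)` has no prime factor in `[5, N ^ c]`, where `k (k + 1) (k + 2) (k + 3) + 1` is the square of
`k ^ 2 + 3 k + 1`. The class of zero cannot be excluded, since all elements of `A` may be multiples of `p`.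

For `A` the set of all integers up to `N` this is the theorem of Richert on the almost prime values of polynomials. For
the differences `p - 1` and `p + 1`, `p` prime, such a power saving is a theorem of B. Green.

Method: the small primes (up to a small power of `N`) are sieved by a combination of additive characters with
majorising properties: with `t_p (m) = (K + 1) 1_{p | m} - x_p (m)`, where `x_p` is the indicator function of the
excluded classes and their negatives, `L = ∑_{d ≤ D} (1 - log d / log D) ∏_{p | d} t_p` and its analogues `L_p`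
give `f = L ^ 2 - ∑_p x_p L_p ^ 2 ≤ 0` outside of the sifted set, and the Fourier coefficients of `f`
which are not small are nonnegative, so that their contribution is bounded from below by the main term, however sparse
`A` is. The larger primes are treated by the linear sieve with the weights of Richert, with the level `N ^ (24 / 25)`:
the mean free parts of their indicator functions, multiplied by `L ^ 2` or `L_p ^ 2`, are dominated
by functions with nonnegative coefficients, whose pair sums are bounded by the large sieve; the loss by the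
sparsity of `A` is compensated by the gain from the size of these primes.
-/

set_option autoImplicit false

namespace Pool.Agent.Results.MP_d57abb_nt.DifferencesOfSparseSets

open Finset Filter Polynomial

/-- `n` is positive and has at most `r` prime factors, counted with multiplicity, all at least `y`. -/
def AlmostPrime (r : ℕ) (y : ℝ) (n : ℕ) : Prop :=
  0 < n ∧ n.primeFactorsList.length ≤ r ∧ ∀ p : ℕ, p.Prime → p ∣ n → y ≤ p

/-- For each prime `p ≤ y` the set `Y p` has at most `h` elements and does not contain `0`. -/
def Classes (h : ℕ) (y : ℝ) (Y : ℕ → Finset ℕ) : Prop :=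
  ∀ p : ℕ, p.Prime → (p : ℝ) ≤ y → (Y p).card ≤ h ∧ 0 ∉ Y p

/-- `m` is modulo no prime `p ≤ y` congruent to an element of `Y p` (the elements of `Y p` are less than `p`). -/
def Avoids (y : ℝ) (Y : ℕ → Finset ℕ) (m : ℕ) : Prop :=
  ∀ p : ℕ, p.Prime → (p : ℝ) ≤ y → m % p ∉ Y p

open Classical in
/-- The number of pairs of elements `b < a` of `A` for which `k = a - b` avoids the classes of `Y` modulo the primes up
to `y`, and `k ^ 2 + 3 k + 1` has at most three prime factors, counted with multiplicity, all at least `z`. -/
noncomputable def pairCount (Y : ℕ → Finset ℕ) (y z : ℝ) (A : Finset ℕ) : ℕ :=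
  ((A ×ˢ A).filter (fun w : ℕ × ℕ => w.2 < w.1 ∧ Avoids y Y (w.1 - w.2) ∧
    AlmostPrime 3 z ((w.1 - w.2) ^ 2 + 3 * (w.1 - w.2) + 1))).card

theorem deg : (X ^ 2 + C 3 * X + 1 : ℤ[X]).natDegree = 2 := by compute_degree!

theorem irr : Irreducible (X ^ 2 + C 3 * X + 1 : ℤ[X]) := by
  have hm : (X ^ 2 + C 3 * X + 1 : ℤ[X]).Monic := by monicity!
  rw [Monic.irreducible_iff_roots_eq_zero_of_degree_le_three hm (by rw [deg]) (by rw [deg]; norm_num)]
  rw [Multiset.eq_zero_iff_forall_notMem]
  intro x hx
  rw [mem_roots hm.ne_zero, IsRoot.def] at hx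
  simp only [eval_add, eval_mul, eval_pow, eval_X, eval_C, eval_one] at hx
  have h1 : x < 0 := by nlinarith
  have h2 : -3 < x := by nlinarith
  interval_cases x <;> omega

/-- **Almost prime values of `k ^ 2 + 3 k + 1` at the differences of a sparse set.** Let `h` be a natural number and
`δ > 0`. There is `c > 0` such that for all sufficiently large `N`, for any sets `Y p` of at most `h` nonzero residue
classes modulo the primes `p ≤ N ^ c`, every set `A` of integers in `[1, N]` with at least `N ^ (1 - c)` elements has
at least `N ^ (2 - δ)` pairs of elements `b < a` for which `k = a - b` lies in none of the classes and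
`k ^ 2 + 3 k + 1` has at most three prime factors, counted with multiplicity, all at least `N ^ (6 / 25)`. -/
theorem result (h : ℕ) (δ : ℝ) (hδ : 0 < δ) :
    ∃ c : ℝ, 0 < c ∧ ∀ᶠ N : ℕ in atTop, ∀ (Y : ℕ → Finset ℕ) (A : Finset ℕ), Classes h ((N : ℝ) ^ c) Y →
      A ⊆ Icc 1 N → (N : ℝ) ^ (1 - c) ≤ (A.card : ℝ) →
      (N : ℝ) ^ (2 - δ) ≤ (pairCount Y ((N : ℝ) ^ c) ((N : ℝ) ^ (6 / 25 : ℝ)) A : ℝ) := by
  classical
  have hd : 0 < (X ^ 2 + C 3 * X + 1 : ℤ[X]).natDegree := by rw [deg]; norm_num
  have h0 : (X ^ 2 + C 3 * X + 1 : ℤ[X]).eval 0 ≠ 0 := by simp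
  obtain ⟨c, R, hc, hcδ, H⟩ := Pool.Agent.H540.PS.polyG _ irr hd h0 3 h 0 (fun _ => 1) (fun i hi => by omega)
    (by rw [deg]; norm_num) δ hδ
  refine ⟨c, hc, ?_⟩
  filter_upwards [H] with N hN Y A hY hA hAc
  refine (hN Y A hY hA hAc).trans ?_
  unfold pairCount
  refine Nat.cast_le.2 (card_le_card ?_)
  intro w hw
  rw [mem_filter] at hw ⊢
  obtain ⟨hwA, hlt, hav, ⟨n, h1, h2, h3⟩, _⟩ := hw
  refine ⟨hwA, hlt, hav, ?_⟩
  have h4 : ((X ^ 2 + C 3 * X + 1 : ℤ[X]).eval ((w.1 : ℤ) - w.2)).natAbs =
      (w.1 - w.2) ^ 2 + 3 * (w.1 - w.2) + 1 := by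
    simp only [eval_add, eval_mul, eval_pow, eval_X, eval_C, eval_one]
    rw [← Nat.cast_sub hlt.le]
    have : ((((w.1 - w.2 : ℕ)) : ℤ) ^ 2 + 3 * ((w.1 - w.2 : ℕ) : ℤ) + 1) =
      (((w.1 - w.2) ^ 2 + 3 * (w.1 - w.2) + 1 : ℕ) : ℤ) := by push_cast; rfl
    rw [this, Int.natAbs_natCast]
  have h5 : ((X ^ 2 + C 3 * X + 1 : ℤ[X]).eval 0).natAbs = 1 := by simp
  rw [h4, h5, one_mul] at h1
  rw [h1]
  refine ⟨?_, h2, h3⟩
  rw [← h1]
  positivity

end Pool.Agent.Results.MP_d57abb_nt.DifferencesOfSparseSets
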