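import Mathlib
import Pool.Agent.H568.Tri3
import Pool.Agent.H568.LB.LoR
import Pool.Agent.H568.PH.Sub

/-!
# The ratio of `#{k ≤ x : k² + 3 k + c prime}` to `π(x)`, for almost all odd `c ≤ C`, `C ≥ x^(2/3+ε)` and `C ≥ x^(5/8+ε)`, and for a positive proportion of them, `C ≥ x^(1/2+ε)`

The problem asks for the limit of `a(n) / π(10^n)`, where `a(n)` is the number of the primes `k² + 3 k + 1`, `k ≤ 10^n`; the
conjecture of Bateman and Horn predicts the product of `1 - (5 / p) / (p - 1)` over the odd primes. Here the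
constant term varies: for all large `x` (for instance `x = 10^n`), every `C` with `x^(2/3+ε) ≤ C ≤ x` and almost all the odd
numbers `c ≤ C` the ratio of the number of the primes `k² + 3 k + c`, `1 ≤ k ≤ x`, to `π(x)` is between `1/2 - η` and
`5/3 + η` times the predicted limit `∏_{p > 2} (1 - ((9 - 4 c) / p) / (p - 1))`; for `x^(5/8+ε) ≤ C` it is at least `1/10 - η`
times this limit. So for almost all odd `c` the primes `k² + 3 k + c` are as many as predicted, up to a factor at most `2`,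
from `x = c` on up to `x = c^(3/2 - ε)`, and in the right order up to `x = c^(8/5 - ε)`; the upper bound is smaller than the
factor `2` of the parity barrier. For `C ≥ x^(1/2+ε)` the ratio is at least `κ > 0` for a positive proportion of the odd
`c ≤ C`. (The library has the asymptotic formula for `C ≥ x^(5/6+ε)` and a
lower bound for `C ≥ x^(7/10+ε)`, for some families of quadratic polynomials.)

Proof. `two_gen` (`Pool.Agent.H568`) with `a = 1`, `b = 3`, and the prime number theorem; the engine (an average over the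
constant term of the bilinear sums over divisors up to `x^(5/6)` and between `x^(5/6)` and `x^(1-ε)`, few values with a
divisor near `x`, a lower and an upper bound sieve with bilinear corrections) is the one of
`MP_391708_nt.TwoSidedThinFamily` (there for `n² + a`). For the exponent `5/8`: `low58_c`, see the same file. With `k = y - 1` the polynomials `k² + 3 k + c` are `y² + y + (c - 2)`.
For `C ≥ x^(1/2+ε)` (files `PH/*`): the values are detected by a triangle function of the square root; Vaughan's identity and the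
double large sieve give a lower bound of the right order for the primes among them (the method of Balog and Harman for the primes
with `{√p} < p^(-1/4+ε)`); the second moment over `c` is bounded by the upper bound sieve.
-/

set_option autoImplicit false

namespace Pool.Agent.Results.MP_d57abb_nt.RatioToThePrimes

open Finset Filter Topology

/-- the number of the `1 ≤ k ≤ x` for which `k² + 3 k + c` is prime -/
def count (c x : ℕ) : ℕ := #((Icc 1 x).filter (fun k : ℕ => (k ^ 2 + 3 * k + c).Prime))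

/-- the product of `1 - ((9 - 4 c) / p) / (p - 1)` over the odd primes `p ≤ z` -/
noncomputable def partialL (c z : ℕ) : ℝ :=
  ∏ p ∈ (Icc 3 z).filter Nat.Prime, (1 - (jacobiSym (9 - 4 * (c : ℤ)) p : ℝ) / ((p : ℝ) - 1))

lemma partialL_eq (c : ℕ) : partialL c = fun z : ℕ => Pool.Agent.N792.partialC 1 3 (c : ℤ) z := by
  funext z
  unfold partialL Pool.Agent.N792.partialC
  have e1 : (Icc 3 z).filter (fun p : ℕ => p.Prime ∧ ¬ (p : ℤ) ∣ 1) = (Icc 3 z).filter Nat.Prime := by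
    apply filter_congr
    intro p _
    constructor
    · exact fun hp => hp.1
    · intro hp
      refine ⟨hp, fun h => ?_⟩
      have h1 : p ∣ 1 := by exact_mod_cast h
      exact hp.one_lt.ne' (Nat.dvd_one.1 h1)
  rw [e1]
  refine prod_congr rfl fun p _ => ?_
  have e2 : (3 : ℤ) ^ 2 - 4 * 1 * (c : ℤ) = 9 - 4 * (c : ℤ) := by ring
  rw [e2]

/-- the first part -/
theorem almost_all (ε η : ℝ) (hε : 0 < ε) (hη : 0 < η) :
    ∃ x0 : ℕ, ∀ x : ℕ, x0 ≤ x → ∀ C : ℕ, (x : ℝ) ^ (5 / 8 + ε) ≤ C → C ≤ x →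
    ∃ Ex ⊆ (Icc 1 C).filter Odd, (#Ex : ℝ) ≤ η * C ∧ ∀ c ∈ (Icc 1 C).filter Odd, c ∉ Ex →
      ∃ L : ℝ, 0 < L ∧ Tendsto (partialL c) atTop (𝓝 L) ∧
        (1 / 10 - η) * L ≤ (count c x : ℝ) / Nat.primeCounting x ∧
        ((x : ℝ) ^ (2 / 3 + ε) ≤ C →
          (1 / 2 - η) * L ≤ (count c x : ℝ) / Nat.primeCounting x ∧
          (count c x : ℝ) / Nat.primeCounting x ≤ (5 / 3 + η) * L) := by
  obtain ⟨x1, h1⟩ := Pool.Agent.H568.LB.three_lo ε η hε hη
  obtain ⟨x2, h2⟩ := Pool.Agent.H568.three_two ε η hε hη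
  refine ⟨x1 + x2, fun x hx C hC1 hC2 => ?_⟩
  by_cases hc : (x : ℝ) ^ (2 / 3 + ε) ≤ C
  · obtain ⟨Ex, k1, k2, k3⟩ := h2 x (by omega) C hc hC2
    refine ⟨Ex, k1, k2, fun c hcC hcE => ?_⟩
    obtain ⟨S, m1, m2, m3, m4⟩ := k3 c hcC hcE
    refine ⟨S, m1, ?_, le_trans (mul_le_mul_of_nonneg_right (by linarith) m1.le) m3, fun _ => ⟨m3, m4⟩⟩
    rw [partialL_eq c]
    exact m2
  · obtain ⟨Ex, k1, k2, k3⟩ := h1 x (by omega) C hC1 hC2
    refine ⟨Ex, k1, k2, fun c hcC hcE => ?_⟩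
    obtain ⟨S, m1, m2, m3⟩ := k3 c hcC hcE
    refine ⟨S, m1, ?_, m3, fun h => absurd h hc⟩
    rw [partialL_eq c]
    exact m2

/-- the second part -/
theorem proportion (ε : ℝ) (hε : 0 < ε) :
    ∃ κ : ℝ, 0 < κ ∧ ∃ x1 : ℕ, ∀ x : ℕ, x1 ≤ x → ∀ C : ℕ, (x : ℝ) ^ (1 / 2 + ε) ≤ C → C ≤ x →
      κ * C ≤ (#(((Icc 1 C).filter Odd).filter (fun c : ℕ => κ ≤ (count c x : ℝ) / Nat.primeCounting x)) : ℝ) := by
  obtain ⟨κ, hκ, x1, h⟩ := Pool.Agent.H568.PH.ph_sub 1 3 le_rfl Odd (by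
    intro c hc hcQ n hn hp
    rw [Nat.not_odd_iff_even] at hcQ
    have h1 : 2 ∣ 1 * n ^ 2 + 3 * n + c := by
      have h2 : 2 ∣ n * (n + 1) := (Nat.even_mul_succ_self n).two_dvd
      have e : 1 * n ^ 2 + 3 * n + c = n * (n + 1) + (2 * n + c) := by ring
      rw [e]
      exact dvd_add h2 (dvd_add (Dvd.intro _ rfl) hcQ.two_dvd)
    have h3 := (Nat.prime_dvd_prime_iff_eq Nat.prime_two hp).1 h1
    have h4 : 1 ≤ n ^ 2 := Nat.one_le_pow _ _ hn
    omega) ε hε
  obtain ⟨x2, hx2⟩ := eventually_atTop.1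
    ((Metric.tendsto_nhds.1 Pool.Agent.H706R2.PS.T12bh.pnt_nat) 1 one_pos)
  refine ⟨κ / 2, by positivity, x1 + x2 + 3, fun x hx C hC1 hC2 => ?_⟩
  obtain ⟨G, hG1, hG2⟩ := h x (by omega) C hC1 hC2
  have hC0 : (0 : ℝ) ≤ C := Nat.cast_nonneg _
  refine le_trans (by nlinarith : κ / 2 * (C : ℝ) ≤ κ * C) (hG1.trans (Nat.cast_le.2 (card_le_card fun c hc => ?_)))
  obtain ⟨g1, g2, g3, g4⟩ := hG2 c hc
  rw [mem_filter, mem_filter, mem_Icc]
  refine ⟨⟨⟨by omega, g2⟩, g3⟩, ?_⟩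
  have hx3 : (3 : ℝ) ≤ x := by exact_mod_cast (by omega : 3 ≤ x)
  have hlog : 0 < Real.log x := Real.log_pos (by linarith)
  obtain ⟨X, hX⟩ : ∃ X : ℝ, X = (x : ℝ) / Real.log x := ⟨_, rfl⟩
  have hX0 : 0 < X := by rw [hX]; positivity
  have hpi := hx2 x (by omega)
  rw [Real.dist_eq] at hpi
  obtain ⟨π, hπ⟩ : ∃ π : ℝ, π = (Nat.primeCounting x : ℝ) := ⟨_, rfl⟩
  rw [← hπ] at hpi ⊢
  have hpi1 : |π / X - 1| < 1 := by
    have e : π * Real.log x / x = π / X := by rw [hX]; field_simp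
    rw [← e]
    exact hpi
  have p2 : π ≤ 2 * X := by
    have := (abs_lt.1 hpi1).2
    have h2 : π / X ≤ 2 := by linarith
    rwa [div_le_iff₀ hX0] at h2
  have hπ0 : 0 < π := by
    have := (abs_lt.1 hpi1).1
    have h2 : 0 < π / X := by linarith
    by_contra hcon
    have : π / X ≤ 0 := div_nonpos_of_nonpos_of_nonneg (not_lt.1 hcon) hX0.le
    linarith
  rw [le_div_iff₀ hπ0]
  have e : (Icc 1 x).filter (fun n : ℕ => (1 * n ^ 2 + 3 * n + c).Prime) = (Icc 1 x).filter (fun k : ℕ => (k ^ 2 + 3 * k + c).Prime) := by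
    simp only [one_mul]
  rw [e, ← hX] at g4
  have e2 : (count c x : ℝ) = (#((Icc 1 x).filter (fun k : ℕ => (k ^ 2 + 3 * k + c).Prime)) : ℝ) := rfl
  rw [e2]
  calc κ / 2 * π ≤ κ / 2 * (2 * X) := mul_le_mul_of_nonneg_left p2 (by positivity)
    _ = κ * X := by ring
    _ ≤ _ := g4

/-- **Theorem.** Let `ε, η > 0`. (1) For all large `x` and all `C` with `x^(5/8+ε) ≤ C ≤ x`, all but at most `η C` of the odd
numbers `c ≤ C` have the following property: the product converges to a number `L > 0`, and the ratio of the number of the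
`1 ≤ k ≤ x` with `k² + 3 k + c` prime to the number `π(x)` of the primes up to `x` is at least `(1/10 - η) L`, and if
`C ≥ x^(2/3+ε)` it is between `(1/2 - η) L` and `(5/3 + η) L`. (2) There is a `κ > 0` such that for all large `x` and all `C`
with `x^(1/2+ε) ≤ C ≤ x` this ratio is at least `κ` for at least `κ C` of the odd numbers `c ≤ C`. -/
theorem result (ε η : ℝ) (hε : 0 < ε) (hη : 0 < η) :
    (∃ x0 : ℕ, ∀ x : ℕ, x0 ≤ x → ∀ C : ℕ, (x : ℝ) ^ (5 / 8 + ε) ≤ C → C ≤ x →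
    ∃ Ex ⊆ (Icc 1 C).filter Odd, (#Ex : ℝ) ≤ η * C ∧ ∀ c ∈ (Icc 1 C).filter Odd, c ∉ Ex →
      ∃ L : ℝ, 0 < L ∧ Tendsto (partialL c) atTop (𝓝 L) ∧
        (1 / 10 - η) * L ≤ (count c x : ℝ) / Nat.primeCounting x ∧
        ((x : ℝ) ^ (2 / 3 + ε) ≤ C →
          (1 / 2 - η) * L ≤ (count c x : ℝ) / Nat.primeCounting x ∧
          (count c x : ℝ) / Nat.primeCounting x ≤ (5 / 3 + η) * L)) ∧
    ∃ κ : ℝ, 0 < κ ∧ ∃ x1 : ℕ, ∀ x : ℕ, x1 ≤ x → ∀ C : ℕ, (x : ℝ) ^ (1 / 2 + ε) ≤ C → C ≤ x →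
      κ * C ≤ (#(((Icc 1 C).filter Odd).filter (fun c : ℕ => κ ≤ (count c x : ℝ) / Nat.primeCounting x)) : ℝ) :=
  ⟨almost_all ε η hε hη, proportion ε hε⟩

end Pool.Agent.Results.MP_d57abb_nt.RatioToThePrimes
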