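import Pool.Agent.H543.DP.Dig
import Pool.Graph.R_seed8.Helper923.PNT

/-!
# The primes `k ^ 2 + 3 k + 1`: an upper bound for the ratio, and almost primes

Let `L` be the limit predicted by the conjecture of Bateman and Horn (the product of
`1 - (5 / p) / (p - 1)` over the odd primes).  The ratio `a(n) / π(10 ^ n)` of the problem is at most
`(48 / 13 + ε) L` for large `n`, and the ratio of the number of the `k ≤ 10 ^ n` for which
`k ^ 2 + 3 k + 1` has at most two prime factors to `π(10 ^ n)` is at least `κ > 0`; the same holds for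
the `k` with prescribed first and last decimal digits (a positive proportion of all digits), and for
the `k` in `(X, X + H]` in a class `r` modulo `Q`, uniformly in `X ^ (1 - δ) ≤ H ≤ X / 2` and
`Q ≤ X ^ δ`.
-/

set_option autoImplicit false

namespace Pool.Agent.Results.MP_d57abb_nt.UpperBoundAndAlmostPrimes

open Filter Finset Topology

/-- the value `k ^ 2 + 3 k + 1` -/
def F (k : ℤ) : ℤ := k ^ 2 + 3 * k + 1

/-- `a(n)`: the number of the `1 ≤ k ≤ 10 ^ n` for which `k ^ 2 + 3 k + 1` is prime -/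
def a (n : ℕ) : ℕ := ((Finset.Icc 1 (10 ^ n)).filter (fun k : ℕ => (k ^ 2 + 3 * k + 1).Prime)).card

/-- the partial products over the odd primes -/
noncomputable def partialL (N : ℕ) : ℝ :=
  ∏ p ∈ (Finset.range (N + 1)).filter (fun p : ℕ => p.Prime ∧ 3 ≤ p),
    (1 - (jacobiSym 5 p : ℝ) / ((p : ℝ) - 1))

/-- `f` (a value of `F` at `n`) has at most two prime factors, counted with multiplicity, and they
are all at least `n ^ (23 / 100)` -/
def AlmostPrime (n : ℕ) (f : ℤ) : Prop :=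
  f.natAbs.primeFactorsList.length ≤ 2 ∧
    ∀ p : ℕ, p.Prime → p ∣ f.natAbs → (n : ℝ) ^ (23 / 100 : ℝ) ≤ p

/-- the integers of `(X, X + H]` in the class `r` modulo `Q` -/
def cls (X H Q : ℕ) (r : ℤ) : Finset ℕ :=
  (Finset.Ioc X (X + H)).filter (fun n : ℕ => (Q : ℤ) ∣ (n : ℤ) - r)

/-- the product of `1 - ω(p) / p` over the primes `p` dividing `Q`, where `ω(p)` is the number of the
roots of `k ^ 2 + 3 k + 1` modulo `p` -/
noncomputable def classFactor (Q : ℕ) : ℝ :=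
  ∏ p ∈ Q.primeFactors,
    (1 - (((Finset.range p).filter (fun m : ℕ => (p : ℤ) ∣ F m)).card : ℝ) / p)

/-- For some `δ > 0`, the assertion `R X H Q r` holds for all large `X`, all `H` with
`X ^ (1 - δ) ≤ H ≤ X / 2`, all `Q ≤ X ^ δ` and all classes `r` modulo `Q` with `F r` prime to `Q`. -/
def InAllClasses (R : ℕ → ℕ → ℕ → ℤ → Prop) : Prop :=
  ∃ δ : ℝ, 0 < δ ∧ ∀ᶠ X : ℕ in atTop, ∀ H : ℕ, (X : ℝ) ^ (1 - δ) ≤ H → 2 * H ≤ X →
    ∀ (Q : ℕ) (r : ℤ), 1 ≤ Q → (Q : ℝ) ≤ (X : ℝ) ^ δ → IsCoprime (F r) Q → R X H Q r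

theorem F_eq (n : ℤ) : F n = Pool.Agent.H543.DP.fv 1 3 1 n := by
  unfold F Pool.Agent.H543.DP.fv
  push_cast
  ring

/-- the prime number theorem -/
theorem pnt (e : ℝ) (he : 0 < e) : ∀ᶠ N : ℕ in atTop,
    (N : ℝ) / Real.log N ≤ (1 + e) * Nat.primeCounting N ∧
      (Nat.primeCounting N : ℝ) ≤ 2 * (N / Real.log N) := by
  have h := Pool.Agent.Helper923.PNT.pi_tendsto.comp (tendsto_natCast_atTop_atTop (R := ℝ))
  have h0 : Tendsto (fun n : ℕ => (Nat.primeCounting n : ℝ) * Real.log n / n) atTop (nhds 1) := by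
    refine h.congr fun n => ?_
    simp only [Function.comp, Nat.floor_natCast]
  have h1 : (1 : ℝ) / (1 + e) < 1 := by
    rw [div_lt_one (by linarith)]
    linarith
  filter_upwards [h0.eventually (le_mem_nhds h1), h0.eventually (ge_mem_nhds (show (1 : ℝ) < 2 by norm_num)),
    eventually_ge_atTop 3] with N h2 h3 h4
  have hN : (3 : ℝ) ≤ N := by exact_mod_cast h4
  have hN0 : (0 : ℝ) < N := by linarith
  have hlN : 0 < Real.log N := Real.log_pos (by linarith)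
  constructor
  · rw [div_le_div_iff₀ (by linarith) hN0] at h2
    rw [div_le_iff₀ hlN]
    linarith
  · rw [div_le_iff₀ hN0] at h3
    rw [← mul_div_assoc, le_div_iff₀ hlN]
    linarith

open Classical in
/-- **The primes and almost primes `k ^ 2 + 3 k + 1`.** -/
theorem result :
    ∃ L : ℝ, 0 < L ∧ Tendsto partialL atTop (𝓝 L) ∧
      (∀ ε : ℝ, 0 < ε → ∀ᶠ n : ℕ in atTop,
        (a n : ℝ) / Nat.primeCounting (10 ^ n) ≤ (48 / 13 + ε) * L) ∧
      (∃ κ : ℝ, 0 < κ ∧ ∀ᶠ n : ℕ in atTop, κ ≤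
        (((Finset.Icc 1 (10 ^ n)).filter (fun k : ℕ => AlmostPrime k (F k))).card : ℝ) /
          Nat.primeCounting (10 ^ n)) ∧
      (∃ δ κ : ℝ, 0 < δ ∧ 0 < κ ∧ ∀ᶠ K : ℕ in atTop, ∀ j : ℕ, (j : ℝ) ≤ δ * K →
        ∀ (M : ℕ) (t : ℤ), 3 ≤ M → M < 10 ^ j → IsCoprime (F t) 10 →
        κ * ((10 : ℝ) ^ (K - j) / ((10 : ℝ) ^ j * K)) ≤ (((Finset.range (10 ^ K)).filter (fun k : ℕ =>
          k / 10 ^ (K - j) = M ∧ ((10 ^ j : ℕ) : ℤ) ∣ (k : ℤ) - t ∧
          AlmostPrime k (F k))).card : ℝ)) ∧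
      (∀ ε : ℝ, 0 < ε → InAllClasses fun X H Q r =>
        (((cls X H Q r).filter (fun n : ℕ => Prime (F n))).card : ℝ) ≤
          (48 / 13 + ε) * L * ((H : ℝ) / (Q * classFactor Q * Real.log X))) ∧
      (∀ η : ℝ, 0 < η → η < 13 / 24 → ∃ κ : ℝ, 0 < κ ∧ InAllClasses fun X H Q r =>
        κ * ((H : ℝ) / (Q * Real.log X)) ≤ (((cls X H Q r).filter (fun n : ℕ =>
          ∀ p : ℕ, p.Prime → (p : ℤ) ∣ F n → (n : ℝ) ^ η < p)).card : ℝ)) ∧
      (∃ κ : ℝ, 0 < κ ∧ InAllClasses fun X H Q r =>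
        κ * ((H : ℝ) / (Q * Real.log X)) ≤
          (((cls X H Q r).filter (fun n : ℕ => AlmostPrime n (F n))).card : ℝ)) ∧
      ∃ M K : ℝ, ∀ (Q : ℕ) (r : ℤ), 1 ≤ Q → IsCoprime (F r) Q →
        ∃ n : ℕ, (n : ℝ) ≤ K * (Q : ℝ) ^ M ∧ (Q : ℤ) ∣ (n : ℤ) - r ∧ 1 < F n ∧
          (F n).natAbs.primeFactorsList.length ≤ 2 := by
  obtain ⟨A0, Fu, fl, hSF⟩ := Pool.Agent.W366.DC.SFX
  have hA0 : A0 = 2 * Real.exp Real.eulerMascheroniConstant :=
    Pool.Agent.Y882.JR.A0_eq Pool.Agent.Y445.JRB.t hSF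
  have hna : ¬ IsSquare (-(Pool.Agent.H543.DP.dt 1 3 1)) := by
    have h0 : -(Pool.Agent.H543.DP.dt 1 3 1) = 5 := by
      unfold Pool.Agent.H543.DP.dt
      norm_num
    rw [h0]
    rintro ⟨s, hs⟩
    have h1 : s.natAbs * s.natAbs = 5 := by
      have := congrArg Int.natAbs hs
      rw [Int.natAbs_mul] at this
      exact this.symm
    have h2 : s.natAbs ≤ 2 := by
      by_contra h3
      have : 3 * 3 ≤ s.natAbs * s.natAbs := Nat.mul_le_mul (by omega) (by omega)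
      omega
    interval_cases h4 : s.natAbs <;> omega
  have hg : Int.gcd (Int.gcd ((1 : ℕ) : ℤ) 3 : ℤ) 1 = 1 := by decide
  have ho : ¬ (Even (((1 : ℕ) : ℤ) + 3) ∧ Even (1 : ℤ)) := by
    rintro ⟨-, h1⟩
    exact absurd h1 (by decide)
  obtain ⟨S, hS0, hS⟩ := Pool.Agent.H543.DP.cpr_conv 1 3 1 le_rfl hna
  have hcf : Pool.Agent.H543.DP.cfac 1 3 = 1 := by
    unfold Pool.Agent.H543.DP.cfac
    rw [if_pos (by decide)]
    simp
  have hpc : partialL = Pool.Agent.H543.DP.cpr 1 3 1 := by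
    funext N
    unfold partialL Pool.Agent.H543.DP.cpr
    have e1 : (Finset.range (N + 1)).filter (fun p : ℕ => p.Prime ∧ 3 ≤ p) =
        (Finset.range (N + 1)).filter (fun p : ℕ => Nat.Prime p ∧ 3 ≤ p ∧
          ¬ ((p : ℤ) ∣ ((1 : ℕ) : ℤ))) := by
      apply filter_congr
      intro p _
      constructor
      · rintro ⟨h1, h2⟩
        refine ⟨h1, h2, fun hd => ?_⟩
        have h3 : p ∣ 1 := by exact_mod_cast hd
        exact h1.one_lt.ne' (Nat.dvd_one.1 h3)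
      · rintro ⟨h1, h2, -⟩
        exact ⟨h1, h2⟩
    rw [e1]
    apply prod_congr rfl
    intro p _
    have e2 : (3 : ℤ) ^ 2 - 4 * ((1 : ℕ) : ℤ) * 1 = 5 := by
      norm_num
    rw [e2]
  have hten : Tendsto (fun n : ℕ => 10 ^ n) atTop atTop := tendsto_pow_atTop_atTop_of_one_lt (by norm_num)
  refine ⟨S, hS0, ?_, ?_, ?_, ?_, ?_, ?_, ?_, ?_⟩
  · rw [hpc]
    exact hS
  · intro ε hε
    obtain ⟨e, he0, he⟩ : ∃ e : ℝ, 0 < e ∧ (48 / 13 + e) * (1 + e) ≤ 48 / 13 + ε := by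
      refine ⟨min 1 (ε / 10), lt_min one_pos (by linarith), ?_⟩
      have h1 : min 1 (ε / 10) ≤ 1 := min_le_left _ _
      have h2 : min 1 (ε / 10) ≤ ε / 10 := min_le_right _ _
      have h3 : 0 < min 1 (ε / 10) := lt_min one_pos (by linarith)
      nlinarith
    have h1 := Pool.Agent.H543.DP.pcN_up Pool.Agent.Y346.PA.kl 1 3 1 le_rfl hna hg ho S hS0 hS e he0
    filter_upwards [hten.eventually (h1.and ((pnt e he0).and (eventually_ge_atTop 3)))] with n hn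
    obtain ⟨h2, ⟨h3, -⟩, h5⟩ := hn
    obtain ⟨N, hN⟩ : ∃ N : ℕ, N = 10 ^ n := ⟨_, rfl⟩
    have h6 : a n ≤ Pool.Agent.H543.DP.pcN 1 3 1 (10 ^ n) := by
      unfold a Pool.Agent.H543.DP.pcN
      apply card_le_card
      intro x hx
      rw [mem_filter, mem_Icc] at hx
      rw [mem_filter, mem_Icc]
      refine ⟨hx.1, ?_⟩
      have h8 : Pool.Agent.H543.DP.fv 1 3 1 x = ((x ^ 2 + 3 * x + 1 : ℕ) : ℤ) := by
        unfold Pool.Agent.H543.DP.fv
        push_cast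
        ring
      rw [h8]
      exact Nat.prime_iff_prime_int.1 hx.2
    have h7 : (a n : ℝ) ≤ Pool.Agent.H543.DP.pcN 1 3 1 (10 ^ n) := by exact_mod_cast h6
    rw [← hN] at h2 h3 h5 h7 ⊢
    rw [hcf, one_mul] at h2
    have hn0 : (3 : ℝ) ≤ N := by exact_mod_cast h5
    have h8 : 0 < (N : ℝ) / Real.log N := by
      have := Real.log_pos (show (1 : ℝ) < N by linarith)
      positivity
    obtain ⟨I, hI⟩ : ∃ I : ℝ, I = (Nat.primeCounting N : ℝ) := ⟨_, rfl⟩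
    rw [← hI] at h3 ⊢
    have hL0 : 0 < I := by
      have h9 : 0 < (1 + e) * I := lt_of_lt_of_le h8 h3
      exact pos_of_mul_pos_right h9 (by linarith)
    rw [div_le_iff₀ hL0]
    calc (a n : ℝ) ≤ (48 / 13 + e) * S * ((N : ℝ) / Real.log N) := h7.trans h2
      _ ≤ (48 / 13 + e) * S * ((1 + e) * I) := mul_le_mul_of_nonneg_left h3 (by positivity)
      _ = (48 / 13 + e) * (1 + e) * (S * I) := by ring
      _ ≤ (48 / 13 + ε) * (S * I) := mul_le_mul_of_nonneg_right he (by positivity)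
      _ = (48 / 13 + ε) * S * I := by ring
  · obtain ⟨κ, hκ, h1⟩ := Pool.Agent.H543.DP.p2N_low Pool.Agent.Y346.PA.kl 1 3 1 le_rfl hna hg ho
    refine ⟨κ / 2, by positivity, ?_⟩
    filter_upwards [hten.eventually (h1.and ((pnt 1 one_pos).and (eventually_ge_atTop 3)))] with n hn
    obtain ⟨h2, ⟨h3, h4⟩, h5⟩ := hn
    unfold AlmostPrime
    simp only [F_eq]
    obtain ⟨N, hN⟩ : ∃ N : ℕ, N = 10 ^ n := ⟨_, rfl⟩
    rw [← hN] at h2 h3 h4 h5 ⊢
    have hn0 : (3 : ℝ) ≤ N := by exact_mod_cast h5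
    have h8 : 0 < (N : ℝ) / Real.log N := by
      have := Real.log_pos (show (1 : ℝ) < N by linarith)
      positivity
    have hI : 0 < (Nat.primeCounting N : ℝ) := by linarith
    rw [le_div_iff₀ hI]
    refine le_trans ?_ h2
    calc κ / 2 * (Nat.primeCounting N : ℝ) ≤ κ / 2 * (2 * (N / Real.log N)) :=
          mul_le_mul_of_nonneg_left h4 (by positivity)
      _ = _ := by ring
  · obtain ⟨δ, κ, hδ, hκ, h1⟩ := Pool.Agent.H543.DP.digits_p2 Pool.Agent.Y346.PA.kl 1 3 1 le_rfl hna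
      hg ho 10 (by norm_num)
    refine ⟨δ, κ, hδ, hκ, ?_⟩
    filter_upwards [h1] with K h2
    intro j hj L t hL hLb ht
    unfold AlmostPrime
    simp only [F_eq] at ht ⊢
    have h3 := h2 j hj L t hL hLb (by push_cast; exact ht)
    push_cast at h3 ⊢
    exact h3
  · intro ε hε
    obtain ⟨δ, hδ, h5⟩ := Pool.Agent.H543.DP.prime_f Pool.Agent.Y346.PA.kl 1 3 1 le_rfl hna hg ho
      A0 Fu fl hSF hA0 S hS0 hS ε hε
    refine ⟨δ, hδ, ?_⟩
    filter_upwards [Pool.Agent.H543.DP.to_half 3 _ δ h5] with X h6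
    intro H h7 h8 Q r h9 h10 h11
    rw [F_eq] at h11
    have h12 := h6 H h7 h8 Q r h9 h10 h11
    rw [hcf, one_mul] at h12
    unfold classFactor
    simp only [F_eq]
    exact h12
  · intro η h1 h2
    obtain ⟨δ, hδ, κ, hκ, h5⟩ := Pool.Agent.H543.DP.rgh_f Pool.Agent.Y346.PA.kl 1 3 1 le_rfl hna
      hg ho A0 Fu fl hSF S hS0 hS η h1 h2
    refine ⟨κ, hκ, δ, hδ, ?_⟩
    filter_upwards [Pool.Agent.H543.DP.to_half 3 _ δ h5] with X h6
    intro H h7 h8 Q r h9 h10 h11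
    rw [F_eq] at h11
    simp only [F_eq]
    exact h6 H h7 h8 Q r h9 h10 h11
  · obtain ⟨δ, hδ, κ, hκ, h5⟩ := Pool.Agent.H543.DP.p2_f Pool.Agent.Y346.PA.kl 1 3 1 le_rfl hna
      hg ho
    refine ⟨κ, hκ, δ, hδ, ?_⟩
    filter_upwards [Pool.Agent.H543.DP.to_half 3 _ δ h5] with X h6
    intro H h7 h8 Q r h9 h10 h11
    rw [F_eq] at h11
    unfold AlmostPrime
    simp only [F_eq]
    exact h6 H h7 h8 Q r h9 h10 h11
  · obtain ⟨M, K, h5⟩ := Pool.Agent.H543.DP.least_f Pool.Agent.Y346.PA.kl 1 3 1 le_rfl hna hg ho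
    refine ⟨M, K, ?_⟩
    intro Q r hQ hc
    rw [F_eq] at hc
    obtain ⟨n, h6, h7, h9, h8⟩ := h5 Q r hQ hc
    refine ⟨n, h6, h7, ?_, ?_⟩
    · rw [F_eq]
      exact h9
    · rw [F_eq]
      exact h8

end Pool.Agent.Results.MP_d57abb_nt.UpperBoundAndAlmostPrimes
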